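import Mathlib
import Pool.Agent.Q186.Rays.Neg
import Pool.Agent.Q186.Rays.Pos2
import Pool.Agent.Q186.Rays.Scal

/-!
# Finitely many rays force somewhere dense orbits exactly in dimension one
-/

set_option autoImplicit false

open Metric Set Topology

namespace Pool.Agent.Results.MP_c0f1e3_an.RaysForceIffDimensionOne

open Pool.Agent.Q186.Rays

/-- Let `V ≠ 0` be a finite-dimensional normed space over `K = ℝ` or `K = ℂ`. There are finitely many
rays in `V` such that every finitely generated commutative linear semigroup with an orbit coarsely
dense along their union has a somewhere dense orbit, if and only if `V` has dimension one over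
`K`. -/
theorem result :
    (∀ (V : Type) [NormedAddCommGroup V] [NormedSpace ℝ V] [FiniteDimensional ℝ V] [Nontrivial V],
      (∃ W : Finset V, Forces ℝ W) ↔ Module.finrank ℝ V = 1) ∧
    (∀ (V : Type) [NormedAddCommGroup V] [NormedSpace ℂ V] [FiniteDimensional ℂ V] [Nontrivial V],
      (∃ W : Finset V, Forces ℂ W) ↔ Module.finrank ℂ V = 1) := by
  refine ⟨?_, ?_⟩
  · intro V _ _ _ _
    constructor
    · rintro ⟨W, hW⟩
      by_contra hne
      have h0 : 0 < Module.finrank ℝ V := Module.finrank_pos
      exact neg (by omega) dense_real W hW
    · intro h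
      refine pos h (-1) (by simp) ?_
      intro z ε hε
      rcases lt_trichotomy z 0 with hz | hz | hz
      · exact ⟨-z, 1, by linarith, by simpa using hε⟩
      · refine ⟨ε / 2, 0, by linarith, ?_⟩
        rw [hz]
        simp only [zpow_zero, mul_one, sub_zero, RCLike.ofReal_real_eq_id, id]
        rw [Real.norm_eq_abs, abs_of_pos (by linarith)]
        linarith
      · exact ⟨z, 0, hz, by simpa using hε⟩
  · intro V _ _ _ _
    constructor
    · rintro ⟨W, hW⟩
      by_contra hne
      have h0 : 0 < Module.finrank ℂ V := Module.finrank_pos
      exact neg (by omega) dense_complex W hW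
    · intro h
      exact pos h rot1 rot1_norm fun z ε hε => dense_rays z ε hε

end Pool.Agent.Results.MP_c0f1e3_an.RaysForceIffDimensionOne
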